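import Pool.Agent.helper62.RS.SpecE
import Pool.Agent.helper62.QU.All

/-!
# MP_07c750, row rs:EIN
-/

set_option autoImplicit false

open scoped MatrixGroups ContDiff Topology UpperHalfPlane ComplexConjugate
open UpperHalfPlane MeasureTheory Filter Set

namespace Pool.Agent.RS

/-- complex conjugation commutes with the Laplace operator -/
private lemma EIN_conj (φ : ℍ → ℂ) (h : QU.CD 2 φ) : QU.CD 2 (fun z => conj (φ z)) ∧
    ∀ z, QU.lap (fun z => conj (φ z)) z = conj (QU.lap φ z) := by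
  have e0 : QU.onC (fun z => conj (φ z)) = fun w => Complex.conjCLE (QU.onC φ w) := by
    funext w
    rfl
  refine ⟨?_, ?_⟩
  · unfold QU.CD
    rw [e0]
    exact Complex.conjCLE.contDiff.comp_contDiffOn h
  · intro z
    have hz : 0 < (z : ℂ).im := z.im_pos
    have hopen : IsOpen {w : ℂ | 0 < w.im} := isOpen_lt continuous_const Complex.continuous_im
    have hcd : ContDiffAt ℝ 2 (QU.onC φ) (z : ℂ) := h.contDiffAt (hopen.mem_nhds hz)
    have hcd1 : ContDiffAt ℝ 1 (fderiv ℝ (QU.onC φ)) (z : ℂ) := hcd.fderiv_right (by norm_num)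
    have hd : DifferentiableAt ℝ (fderiv ℝ (QU.onC φ)) (z : ℂ) := hcd1.differentiableAt (by norm_num)
    have e1 : fderiv ℝ (QU.onC (fun z => conj (φ z))) =
        fun w => (ContinuousLinearMap.compL ℝ ℂ ℂ ℂ (Complex.conjCLE : ℂ →L[ℝ] ℂ)) (fderiv ℝ (QU.onC φ) w) := by
      funext w
      rw [e0]
      exact Complex.conjCLE.comp_fderiv
    have e2 : fderiv ℝ (fderiv ℝ (QU.onC (fun z => conj (φ z)))) (z : ℂ) =
        (ContinuousLinearMap.compL ℝ ℂ ℂ ℂ (Complex.conjCLE : ℂ →L[ℝ] ℂ)).comp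
          (fderiv ℝ (fderiv ℝ (QU.onC φ)) (z : ℂ)) := by
      rw [e1]
      exact ((ContinuousLinearMap.compL ℝ ℂ ℂ ℂ (Complex.conjCLE : ℂ →L[ℝ] ℂ)).hasFDerivAt.comp (z : ℂ)
        hd.hasFDerivAt).fderiv
    unfold QU.lap
    rw [e2]
    simp

/-- the half of the estimate for one function -/
private lemma EIN_half (hGLC : GLC_stmt) (F : Set ℍ) (V : ℍ → ℝ) (W : SL(2, ℝ) → ℂ)
    (lam T M m : ℝ) (hfin : mG (dG F) < ⊤)
    (hVc : Continuous V) (hV01 : ∀ z, 0 ≤ V z ∧ V z ≤ 1) (hW : Continuous W) (hWm : ∀ g, ‖W g‖ ≤ m)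
    (hlam : 0 ≤ lam) (hT : 0 ≤ T)
    (h : ∀ t : ℝ, 0 ≤ t → t ≤ T → iR F (fun g => V ((g * aM t) • I) * ‖W g‖ ^ 2) ≤ M) :
    -(lam * T * M) ≤ ∫ g, (-lam * ∫ t in (0 : ℝ)..T, V ((g * aM t) • I)) * ‖W g‖ ^ 2 ∂(mG.restrict (dG F)) := by
  obtain ⟨hlc, hsc, -, haM, -⟩ := hGLC
  have : LocallyCompactSpace SL(2, ℝ) := hlc
  have : SecondCountableTopology SL(2, ℝ) := hsc
  have : IsFiniteMeasure (mG.restrict (dG F)) := ⟨by rw [Measure.restrict_apply_univ]; exact hfin⟩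
  have hcont : Continuous (Function.uncurry fun (g : SL(2, ℝ)) (t : ℝ) => V ((g * aM t) • I) * ‖W g‖ ^ 2) := by
    have h1 : Continuous (fun p : SL(2, ℝ) × ℝ => (p.1 * aM p.2) • I) :=
      (continuous_fst.mul (haM.comp continuous_snd)).smul continuous_const
    exact (hVc.comp h1).mul ((hW.comp continuous_fst).norm.pow 2)
  have hm0 : 0 ≤ m := (norm_nonneg _).trans (hWm 1)
  have hb : ∀ g t, ‖V ((g * aM t) • I) * ‖W g‖ ^ 2‖ ≤ m ^ 2 := by
    intro g t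
    rw [Real.norm_eq_abs, abs_of_nonneg (mul_nonneg (hV01 _).1 (by positivity))]
    have h1 : ‖W g‖ ^ 2 ≤ m ^ 2 := pow_le_pow_left₀ (norm_nonneg _) (hWm g) 2
    have h2 := (hV01 ((g * aM t) • I)).2
    have h3 := (hV01 ((g * aM t) • I)).1
    nlinarith [sq_nonneg ‖W g‖]
  have hint : Integrable (Function.uncurry fun (g : SL(2, ℝ)) (t : ℝ) => V ((g * aM t) • I) * ‖W g‖ ^ 2)
      ((mG.restrict (dG F)).prod ((volume : Measure ℝ).restrict (Ioc 0 T))) := by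
    refine Integrable.of_bound hcont.aestronglyMeasurable (m ^ 2) (Eventually.of_forall fun p => ?_)
    exact hb p.1 p.2
  have e1 : (∫ g, (-lam * ∫ t in (0 : ℝ)..T, V ((g * aM t) • I)) * ‖W g‖ ^ 2 ∂(mG.restrict (dG F))) =
      -lam * ∫ g, (∫ t in Ioc 0 T, V ((g * aM t) • I) * ‖W g‖ ^ 2) ∂(mG.restrict (dG F)) := by
    rw [← integral_const_mul]
    congr 1
    funext g
    rw [intervalIntegral.integral_of_le hT, integral_mul_const]
    ring
  rw [e1, integral_integral_swap hint]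
  have h2 : ∫ t in Ioc 0 T, (∫ g, V ((g * aM t) • I) * ‖W g‖ ^ 2 ∂(mG.restrict (dG F))) ≤
      ∫ t in Ioc 0 T, M := by
    refine setIntegral_mono_on hint.integral_prod_right ?_ measurableSet_Ioc ?_
    · exact integrableOn_const (by simp)
    · intro t ht
      exact h t ht.1.le ht.2
  have h3 : ∫ t in Ioc 0 T, M = T * M := by
    rw [setIntegral_const]
    simp [hT]
  rw [h3] at h2
  nlinarith

/-- **Row EIN**. -/
theorem EIN (hGLC : GLC_stmt) (hGMG : GMG_stmt) (hGFD : GFD_stmt) (hGBD : GBD_stmt) (hGWB : GWB_stmt)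
    (hFL0 : FL0_stmt) (hETD : ETD_stmt) (hTH4 : TH4_stmt) : EIN_stmt := by
  intro Γ F V c r κ k₀ η lam T N s φ hΓ hF hV hV01 hc hκ hk₀ hη hη1 hlam hT hN hup hkk hmass hfam x hx0 hx1
  obtain ⟨hs, heig, hon⟩ := hfam
  obtain ⟨hlc, hsc, hcpt, haM, -⟩ := id hGLC
  have : LocallyCompactSpace SL(2, ℝ) := hlc
  have : SecondCountableTopology SL(2, ℝ) := hsc
  obtain ⟨⟨hdm, hdv, hfin, -⟩, -⟩ := hGFD Γ F hΓ hF
  have hfm : IsFiniteMeasure (mG.restrict (dG F)) := ⟨by rw [Measure.restrict_apply_univ]; exact hfin⟩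
  obtain ⟨heS, hecs⟩ := hFL0.2.1 (1 / 4) r c hc
  have ca := QU.A_CA1 ℂ
  have hcd0 : ∀ f : ℍ → ℂ, QU.CD 2 f → Continuous f := fun f hf =>
    (ca.1 f).1 (ca.2.1 f 0 2 (by norm_num) hf)
  have hec : Continuous (pk r c) := (ca.1 _).1 (ca.2.1 _ 0 ∞ (by simp) heS)
  have heL : ∀ j, EigL Γ (1 / 4 + s j ^ 2) (φ j) := fun j =>
    ⟨ca.2.1 _ 2 ∞ (WithTop.coe_le_coe.2 le_top) (heig j).1, (heig j).2.1, (heig j).2.2⟩
  have heLc : ∀ j, EigL Γ (1 / 4 + s j ^ 2) (fun z => conj (φ j z)) := by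
    intro j
    have h1 := EIN_conj (φ j) (heL j).1
    refine ⟨h1.1, ?_, ?_⟩
    · intro γ z
      show conj (φ j (γ • z)) = conj (φ j z)
      rw [(heL j).2.1]
    · intro z
      rw [h1.2, (heL j).2.2, map_mul, Complex.conj_ofReal]
  have hI : ∀ ψ : ℍ → ℂ, ∀ μ : ℝ, EigL Γ μ ψ → InvC Γ ψ := fun ψ μ h => ⟨hcd0 ψ h.1, h.2.1⟩
  have hTD := hETD Γ F c r κ k₀ N s φ hΓ hF hc hκ hk₀.le hup hkk heL hon
  have hnn : ∀ j, nn F (φ j) = 1 := by
    intro j
    have h1 := hon j j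
    rw [if_pos rfl] at h1
    have h2 : (∫ z in F, φ j z * conj (φ j z)) = ((nn F (φ j) : ℝ) : ℂ) := by
      unfold nn
      rw [← integral_complex_ofReal]
      congr 1
      funext z
      rw [Complex.mul_conj, Complex.normSq_eq_norm_sq]
    rw [h2] at h1
    exact_mod_cast h1
  have hnnc : ∀ j, nn F (fun z => conj (φ j z)) = 1 := by
    intro j
    rw [← hnn j]
    unfold nn
    congr 1
    funext z
    rw [RCLike.norm_conj]
  have hsr : ∀ j, |s j - r| ≤ 1 := by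
    intro j
    rw [abs_of_nonneg (by linarith [(hs j).1])]
    linarith [(hs j).2]
  -- the numbers
  have hm0 : ∀ j, 0 ≤ ∫ z in F, V z * ‖φ j z‖ ^ 2 := fun j =>
    integral_nonneg (fun z => mul_nonneg (hV01 z).1 (by positivity))
  have hA1 : ∀ j, 1 - η ≤ qn F c r (φ j) / κ := by
    intro j
    have h1 := (hmass (s j) (φ j) (hsr j) (heL j)).1
    rw [hnn j, mul_one] at h1
    rw [le_div_iff₀ hκ]
    exact h1
  have hb : ∀ j, -(lam * T * (κ * ((∫ z in F, V z * ‖φ j z‖ ^ 2) + η))) ≤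
      ∫ g, (-lam * ∫ t in (0 : ℝ)..T, V ((g * aM t) • I)) * ‖Wf (pk r c) (φ j) g‖ ^ 2 ∂(mG.restrict (dG F)) := by
    intro j
    have hG := hFL0.2.2 Γ (pk r c) (φ j) hec hecs (hI _ _ (heL j))
    obtain ⟨m, hm⟩ := (hGBD Γ ℂ _ hΓ hG).1
    refine EIN_half hGLC F V _ lam T _ m hfin hV.1 hV01 hG.1 hm hlam hT ?_
    intro t ht0 ht1
    have h1 := (hmass (s j) (φ j) (hsr j) (heL j)).2 t ht0 ht1
    rw [hnn j, mul_one] at h1
    exact h1
  have ha : ∀ j, -(lam * T * (κ * ((∫ z in F, V z * ‖φ j z‖ ^ 2) + η))) ≤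
      ∫ g, (-lam * ∫ t in (0 : ℝ)..T, V ((g * aM t) • I)) *
        ‖conj (Wf (pk r c) (fun z => conj (φ j z)) g)‖ ^ 2 ∂(mG.restrict (dG F)) := by
    intro j
    have hG := hFL0.2.2 Γ (pk r c) (fun z => conj (φ j z)) hec hecs (hI _ _ (heLc j))
    obtain ⟨m, hm⟩ := (hGBD Γ ℂ _ hΓ hG).1
    refine EIN_half hGLC F V _ lam T _ m hfin hV.1 hV01
      (Complex.continuous_conj.comp hG.1) (fun g => by rw [RCLike.norm_conj]; exact hm g) hlam hT ?_
    intro t ht0 ht1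
    have h1 := (hmass (s j) _ (hsr j) (heLc j)).2 t ht0 ht1
    rw [hnnc j, mul_one] at h1
    simp only [RCLike.norm_conj] at h1 ⊢
    exact h1
  have hΦb : ∀ g : SL(2, ℝ), |-lam * ∫ t in (0 : ℝ)..T, V ((g * aM t) • I)| ≤ lam * T := by
    intro g
    have h1 : ‖∫ t in (0 : ℝ)..T, V ((g * aM t) • I)‖ ≤ 1 * |T - 0| := by
      apply intervalIntegral.norm_integral_le_of_norm_le_const
      intro t _
      rw [Real.norm_eq_abs, abs_of_nonneg (hV01 _).1]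
      exact (hV01 _).2
    rw [sub_zero, abs_of_nonneg hT, one_mul, Real.norm_eq_abs] at h1
    rw [abs_mul, abs_neg, abs_of_nonneg hlam]
    exact mul_le_mul_of_nonneg_left h1 hlam
  have hΦm : BM (fun g : SL(2, ℝ) => -lam * ∫ t in (0 : ℝ)..T, V ((g * aM t) • I)) := by
    refine ⟨?_, lam * T, fun g => ?_⟩
    · have h1 : Continuous (fun p : SL(2, ℝ) × ℝ => V ((p.1 * aM p.2) • I)) :=
        hV.1.comp ((continuous_fst.mul (haM.comp continuous_snd)).smul continuous_const)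
      have h2 : Continuous (fun g : SL(2, ℝ) => ∫ t in (0 : ℝ)..T, V ((g * aM t) • I)) :=
        intervalIntegral.continuous_parametric_intervalIntegral_of_continuous' h1 0 T
      exact (continuous_const.mul h2).measurable
    · exact hΦb g
  have hμ : 0 < ((mG.restrict (dG F)) Set.univ).toReal := by
    rw [Measure.restrict_apply_univ]
    apply ENNReal.toReal_pos _ hfin.ne
    rw [hdv]
    exact (QU.A_DOB Γ F hΓ hF).2.2.1.ne'
  have key := hTH4 SL(2, ℝ) (mG.restrict (dG F)) N _ _ _ _ κ k₀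
    (fun g => -lam * ∫ t in (0 : ℝ)..T, V ((g * aM t) • I)) (lam * T) hTD hΦm hΦb hN hk₀ hμ x hx0 hx1
  refine le_trans ?_ key
  have hN' : (0 : ℝ) < N := by exact_mod_cast (Nat.lt_of_lt_of_le Nat.zero_lt_one hN)
  have hA0 : ∀ j, 0 ≤ qn F c r (φ j) / κ := hTD.nonneg
  have hAle : ∀ j, qn F c r (φ j) / κ ≤ 1 := hTD.le_one
  have p1 : (1 - η) ^ 2 ≤ (∑ j, (qn F c r (φ j) / κ) ^ 2) / N := by
    rw [le_div_iff₀ hN']
    have h1 : ∑ _j : Fin N, (1 - η) ^ 2 ≤ ∑ j, (qn F c r (φ j) / κ) ^ 2 :=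
      Finset.sum_le_sum (fun j _ => pow_le_pow_left₀ (by linarith) (hA1 j) 2)
    rw [Finset.sum_const, Finset.card_univ, Fintype.card_fin, nsmul_eq_mul] at h1
    linarith
  have p2 : -(2 * (lam * T) * κ * ((∑ j, ∫ z in F, V z * ‖φ j z‖ ^ 2) + N * η)) ≤
      ∑ j, qn F c r (φ j) / κ * ((∫ g, (-lam * ∫ t in (0 : ℝ)..T, V ((g * aM t) • I)) *
        ‖conj (Wf (pk r c) (fun z => conj (φ j z)) g)‖ ^ 2 ∂(mG.restrict (dG F))) +
        ∫ g, (-lam * ∫ t in (0 : ℝ)..T, V ((g * aM t) • I)) * ‖Wf (pk r c) (φ j) g‖ ^ 2 ∂(mG.restrict (dG F))) := by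
    have h1 : ∑ j, -(2 * (lam * T) * κ * ((∫ z in F, V z * ‖φ j z‖ ^ 2) + η)) ≤
        ∑ j, qn F c r (φ j) / κ * ((∫ g, (-lam * ∫ t in (0 : ℝ)..T, V ((g * aM t) • I)) *
        ‖conj (Wf (pk r c) (fun z => conj (φ j z)) g)‖ ^ 2 ∂(mG.restrict (dG F))) +
        ∫ g, (-lam * ∫ t in (0 : ℝ)..T, V ((g * aM t) • I)) * ‖Wf (pk r c) (φ j) g‖ ^ 2 ∂(mG.restrict (dG F))) := by
      refine Finset.sum_le_sum (fun j _ => ?_)
      have q1 := add_le_add (ha j) (hb j)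
      have q2 := mul_le_mul_of_nonneg_left q1 (hA0 j)
      refine le_trans ?_ q2
      have q3 : 0 ≤ lam * T * (κ * ((∫ z in F, V z * ‖φ j z‖ ^ 2) + η)) :=
        mul_nonneg (mul_nonneg hlam hT) (mul_nonneg hκ.le (add_nonneg (hm0 j) hη))
      have q4 := mul_le_mul_of_nonneg_right (hAle j) q3
      linarith
    refine le_trans (le_of_eq ?_) h1
    rw [Finset.sum_neg_distrib, ← Finset.mul_sum, Finset.sum_add_distrib, Finset.sum_const, Finset.card_univ,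
      Fintype.card_fin, nsmul_eq_mul]
  have p3 : -(2 * x * lam * T * ((∑ j, ∫ z in F, V z * ‖φ j z‖ ^ 2) / N + η)) ≤
      x * ((∑ j, qn F c r (φ j) / κ * ((∫ g, (-lam * ∫ t in (0 : ℝ)..T, V ((g * aM t) • I)) *
        ‖conj (Wf (pk r c) (fun z => conj (φ j z)) g)‖ ^ 2 ∂(mG.restrict (dG F))) +
        ∫ g, (-lam * ∫ t in (0 : ℝ)..T, V ((g * aM t) • I)) * ‖Wf (pk r c) (φ j) g‖ ^ 2 ∂(mG.restrict (dG F)))) /
        (N * κ)) := by
    have h1 := mul_le_mul_of_nonneg_left (div_le_div_of_nonneg_right p2 (mul_pos hN' hκ).le) hx0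
    refine le_trans (le_of_eq ?_) h1
    field_simp
  linarith

end Pool.Agent.RS
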