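import Pool.Agent.helper29.RS.SpecK
import Pool.Agent.helper62.QU.All

/-!
# MP_07c750, row rs:NR4
-/

set_option autoImplicit false

open scoped MatrixGroups ContDiff Topology UpperHalfPlane ComplexConjugate
open UpperHalfPlane MeasureTheory Filter Set

namespace Pool.Agent.RS

private lemma NR4_add (κ : ℝ → ℝ) (hκ : QU.RK κ) (f g : ℍ → ℂ) (hf : Continuous f) (hg : Continuous g) :
    QU.conv κ (f + g) = QU.conv κ f + QU.conv κ g := by
  funext z
  have h := (QU.A_CVB ℂ).2.1 κ f g 1 1 z hκ hf hg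
  simp only [one_smul] at h
  exact h

private lemma NR4_smul (κ : ℝ → ℝ) (c : ℂ) (f : ℍ → ℂ) :
    QU.conv κ (c • f) = c • QU.conv κ f := by
  funext z
  show ∫ w : ℍ, κ (QU.tt z w) • (c * f w) = c * ∫ w : ℍ, κ (QU.tt z w) • f w
  rw [← integral_const_mul]
  congr 1
  funext w
  rw [mul_smul_comm]

/-- symmetry of the convolution -/
private lemma NR4_sym (Γ : Subgroup SL(2, ℝ)) (F : Set ℍ) (κ : ℝ → ℝ) (f g : ℍ → ℂ)
    (hΓ : QU.SurfaceGroup Γ) (hF : QU.NiceDom Γ F) (hκ : QU.RK κ) (hf : InvC Γ f) (hg : InvC Γ g) :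
    ∫ z in F, conj (QU.conv κ f z) * g z = ∫ z in F, conj (f z) * QU.conv κ g z := by
  obtain ⟨_, _, tsym, tinv, tcont, tdist, _, _⟩ := QU.A_TTT
  have hκc : Continuous κ := hκ.smooth.continuous
  obtain ⟨s, hs⟩ := hκ.supp
  have key := QU.A_SYM Γ F ℂ (fun z w => κ (QU.tt z w) • (conj (f w) * g z)) hΓ hF
    (by
      have e : (Function.uncurry fun z w : ℍ => κ (QU.tt z w) • (conj (f w) * g z)) =
          fun p : ℍ × ℍ => κ (QU.tt p.1 p.2) • (conj (f p.2) * g p.1) := by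
        funext p
        rfl
      rw [e]
      exact (hκc.comp tcont).smul (((Complex.continuous_conj.comp hf.1).comp continuous_snd).mul
        (hg.1.comp continuous_fst)))
    (by
      intro γ z w
      have e1 : QU.tt (γ • z) (γ • w) = QU.tt z w := tinv (γ : SL(2, ℝ)) z w
      show κ (QU.tt (γ • z) (γ • w)) • (conj (f (γ • w)) * g (γ • z)) = κ (QU.tt z w) • (conj (f w) * g z)
      rw [e1, hf.2, hg.2])
    (by
      obtain ⟨R, _, hR⟩ := tdist s
      refine ⟨R, fun z w hne => hR z w ?_⟩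
      by_contra hcon
      push Not at hcon
      apply hne
      show κ (QU.tt z w) • (conj (f w) * g z) = 0
      rw [hs _ hcon.le, zero_smul])
  have hL : (∫ z in F, conj (QU.conv κ f z) * g z) =
      ∫ z in F, ∫ w : ℍ, κ (QU.tt z w) • (conj (f w) * g z) := by
    congr 1
    funext z
    have e0 : conj (QU.conv κ f z) = ∫ w : ℍ, κ (QU.tt z w) • conj (f w) := by
      unfold QU.conv
      rw [← integral_conj]
      congr 1
      funext w
      rw [Complex.real_smul, map_mul, Complex.conj_ofReal, Complex.real_smul]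
    rw [e0, ← integral_mul_const]
    congr 1
    funext w
    rw [smul_mul_assoc]
  have hR : (∫ z in F, conj (f z) * QU.conv κ g z) =
      ∫ z in F, ∫ w : ℍ, κ (QU.tt w z) • (conj (f z) * g w) := by
    congr 1
    funext z
    unfold QU.conv
    rw [← integral_const_mul]
    congr 1
    funext w
    rw [tsym w z, mul_smul_comm]
  rw [hL, hR]
  exact key

/-- **Row NR4**. -/
theorem NR4 : NR4_stmt := by
  intro Γ F E hΓ hF hfin hE hst
  obtain ⟨fam, hfam⟩ := QU.A_KFM
  have hapx := (QU.A_APX fam hfam).1 ℂ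
  -- the operators
  let B : ∀ κ : ℝ → ℝ, QU.RK κ → (E →ₗ[ℂ] E) := fun κ hκ =>
    { toFun := fun u => ⟨QU.conv κ u.1, hst κ hκ u.1 u.2⟩
      map_add' := fun u v => Subtype.ext (NR4_add κ hκ u.1 v.1 (hE u.1 u.2).1 (hE v.1 v.2).1)
      map_smul' := fun c u => Subtype.ext (NR4_smul κ c u.1) }
  have hη : ∀ n : ℕ, (0 : ℝ) < 1 / ((n : ℝ) + 1) := fun n => by positivity
  let Bn : ℕ → (E →ₗ[ℂ] E) := fun n => B (fam (1 / ((n : ℝ) + 1))) (hfam.rk _ (hη n))
  have hconv : ∀ u : E, Tendsto (fun n => Bn n u) atTop (𝓝 u) := by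
    intro u
    rw [tendsto_subtype_rng, tendsto_pi_nhds]
    intro z
    rw [Metric.tendsto_atTop]
    intro ε hε
    obtain ⟨η₀, hη₀, h⟩ := hapx u.1 (hE u.1 u.2).1 {z} isCompact_singleton (ε / 2) (by positivity)
    obtain ⟨N, hN⟩ := exists_nat_one_div_lt hη₀
    refine ⟨N, fun n hn => ?_⟩
    have h1 : 1 / ((n : ℝ) + 1) ≤ 1 / ((N : ℝ) + 1) := by
      apply one_div_le_one_div_of_le (by positivity)
      have : (N : ℝ) ≤ n := by exact_mod_cast hn
      linarith
    have h2 := h (1 / ((n : ℝ) + 1)) (hη n) (h1.trans hN.le) z rfl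
    rw [dist_eq_norm]
    exact lt_of_le_of_lt h2 (by linarith)
  -- the determinant tends to one
  let b := Module.finBasis ℂ E
  have hdet : Tendsto (fun n => LinearMap.det (Bn n)) atTop (𝓝 (1 : ℂ)) := by
    have h1 : Tendsto (fun n => (LinearMap.toMatrix b b (Bn n))) atTop
        (𝓝 (1 : Matrix (Fin (Module.finrank ℂ E)) (Fin (Module.finrank ℂ E)) ℂ)) := by
      refine tendsto_pi_nhds.mpr fun i => tendsto_pi_nhds.mpr fun j => ?_
      have hc : Continuous (b.coord i) := LinearMap.continuous_of_finiteDimensional _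
      have h2 := (hc.tendsto (b j)).comp (hconv (b j))
      have e1 : (1 : Matrix (Fin (Module.finrank ℂ E)) (Fin (Module.finrank ℂ E)) ℂ) i j = b.coord i (b j) := by
        rw [Module.Basis.coord_apply, Module.Basis.repr_self, Matrix.one_apply, Finsupp.single_apply]
        simp only [eq_comm]
      rw [e1]
      refine h2.congr (fun n => ?_)
      rw [LinearMap.toMatrix_apply]
      rfl
    have h3 : Continuous (fun M : Matrix (Fin (Module.finrank ℂ E)) (Fin (Module.finrank ℂ E)) ℂ => M.det) :=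
      Continuous.matrix_det continuous_id
    have h4 := (h3.tendsto 1).comp h1
    rw [Matrix.det_one] at h4
    refine h4.congr (fun n => ?_)
    show (LinearMap.toMatrix b b (Bn n)).det = LinearMap.det (Bn n)
    rw [LinearMap.det_toMatrix]
  obtain ⟨n, hn⟩ : ∃ n, LinearMap.det (Bn n) ≠ 0 :=
    ((hdet.eventually_ne one_ne_zero).exists)
  have hsurj : Function.Surjective (Bn n) := by
    have hu : IsUnit (LinearMap.det (Bn n)) := isUnit_iff_ne_zero.mpr hn
    have h5 : IsUnit (Bn n) := (LinearMap.isUnit_iff_isUnit_det (Bn n)).mpr hu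
    exact ((Module.End.isUnit_iff _).mp h5).2
  let κ : ℝ → ℝ := fam (1 / ((n : ℝ) + 1))
  have hκ : QU.RK κ := hfam.rk _ (hη n)
  have hLκ : QU.RK (QU.LL κ) := QU.A_LAK.2.2.2.1 κ hκ
  have hpre : ∀ v ∈ E, ∃ u ∈ E, v = QU.conv κ u := by
    intro v hv
    obtain ⟨u, hu⟩ := hsurj ⟨v, hv⟩
    exact ⟨u.1, u.2, (congrArg Subtype.val hu).symm⟩
  have hlap : ∀ u ∈ E, QU.CD 2 (QU.conv κ u) ∧ ∀ z, QU.lap (QU.conv κ u) z = QU.conv (QU.LL κ) u z := by
    intro u hu
    have := QU.A_CVS ℂ κ u hκ (hE u hu).1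
    exact ⟨this.1, this.2.2.2⟩
  refine ⟨?_, ?_⟩
  · intro v hv
    obtain ⟨u, hu, rfl⟩ := hpre v hv
    have h1 := hlap u hu
    refine ⟨h1.1, ?_⟩
    rw [show QU.lap (QU.conv κ u) = QU.conv (QU.LL κ) u from funext h1.2]
    exact hst _ hLκ u hu
  · intro v hv v' hv'
    obtain ⟨u, hu, rfl⟩ := hpre v hv
    obtain ⟨u', hu', rfl⟩ := hpre v' hv'
    have h1 := hlap u hu
    have h1' := hlap u' hu'
    have e1 : QU.lap (QU.conv κ u) = QU.conv (QU.LL κ) u := funext h1.2
    have e1' : QU.lap (QU.conv κ u') = QU.conv (QU.LL κ) u' := funext h1'.2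
    have e2 : QU.conv (QU.LL κ) (QU.conv κ u') = QU.conv κ (QU.conv (QU.LL κ) u') := by
      rw [← e1']
      funext z
      exact (QU.A_COM ℂ κ (QU.conv κ u') hκ h1'.1 z).symm
    rw [e1, e1']
    rw [NR4_sym Γ F (QU.LL κ) u (QU.conv κ u') hΓ hF hLκ (hE u hu) (hE _ (hst κ hκ u' hu')), e2]
    rw [NR4_sym Γ F κ u (QU.conv (QU.LL κ) u') hΓ hF hκ (hE u hu) (hE _ (hst _ hLκ u' hu'))]

end Pool.Agent.RS
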